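import Pool.Agent.Q22.CG.Stm

/-! # CG-CL: finite index normal subgroups of a subdirect product (lemma job of helper22, helper285) -/

namespace Pool.Agent.Q285.CG

open Pool.Agent.Q22.CG

section

variable {A : ℕ → Type} [∀ i, Group (A i)] (Q : ∀ i, Subgroup (A i)) (G : Subgroup (∀ i, A i))
  (hms : ∀ i, ∀ g : A i, g ∈ Q i → (Pi.mulSingle i g : ∀ i, A i) ∈ G)

/-- the embedding of a factor -/
def emb (i : ℕ) : Q i →* G where
  toFun q := ⟨Pi.mulSingle i (q : A i), hms i q q.2⟩
  map_one' := by
    apply Subtype.ext
    simp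
  map_mul' a b := by
    apply Subtype.ext
    simp [Pi.mulSingle_mul]

theorem emb_val (i : ℕ) (q : Q i) : ((emb Q G hms i q : G) : ∀ i, A i) = Pi.mulSingle i (q : A i) := rfl

end

theorem cl : S_CL := by
  intro A _ Q G hcent hms hQ hfin N hN hidx
  have hLn : ∀ i, (N.comap (emb Q G hms i)).Normal := fun i => hN.comap (emb Q G hms i)
  -- `N ≤ N_L`
  have h1 : ∀ g : G, g ∈ N → ∀ i, (⟨(g : ∀ i, A i) i, hQ g g.2 i⟩ : Q i) ∈ N.comap (emb Q G hms i) := by
    intro g hg i
    apply hcent i _ (hLn i)
    intro q
    rw [Subgroup.mem_comap]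
    have e : emb Q G hms i ((⟨(g : ∀ i, A i) i, hQ g g.2 i⟩ : Q i) * q *
        (⟨(g : ∀ i, A i) i, hQ g g.2 i⟩ : Q i)⁻¹ * q⁻¹) =
        g * (emb Q G hms i q * g⁻¹ * (emb Q G hms i q)⁻¹) := by
      apply Subtype.ext
      funext j
      simp only [emb_val, Subgroup.coe_mul, Subgroup.coe_inv, Pi.mul_apply, Pi.inv_apply]
      by_cases hj : j = i
      · subst hj
        simp [mul_assoc]
      · simp [Pi.mulSingle_eq_of_ne hj]
    rw [e]
    exact N.mul_mem hg (hN.conj_mem _ (N.inv_mem hg) _)
  have h2 : ∀ s : Finset ℕ, ∀ d : G, (∀ i, i ∉ s → (d : ∀ i, A i) i = 1) →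
      (∀ i, (⟨(d : ∀ i, A i) i, hQ d d.2 i⟩ : Q i) ∈ N.comap (emb Q G hms i)) → d ∈ N := by
    intro s
    induction s using Finset.induction_on with
    | empty =>
      intro d hd _
      have : d = 1 := by
        apply Subtype.ext
        funext i
        exact hd i (by simp)
      rw [this]
      exact N.one_mem
    | insert j s hj ih =>
      intro d hd hL
      have hdj := hL j
      rw [Subgroup.mem_comap] at hdj
      set x : G := emb Q G hms j ⟨(d : ∀ i, A i) j, hQ d d.2 j⟩ with hx
      have hxj : (x : ∀ i, A i) j = (d : ∀ i, A i) j := by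
        rw [hx, emb_val]
        simp
      have hxi : ∀ i, i ≠ j → (x : ∀ i, A i) i = 1 := by
        intro i hi
        rw [hx, emb_val]
        simp [Pi.mulSingle_eq_of_ne hi]
      have h3 : x⁻¹ * d ∈ N := by
        apply ih
        · intro i hi
          by_cases hij : i = j
          · subst hij
            simp [hxj]
          · simp [hxi i hij, hd i (by simp [hij, hi])]
        · intro i
          by_cases hij : i = j
          · subst hij
            have : (⟨((x⁻¹ * d : G) : ∀ i, A i) i, hQ _ (x⁻¹ * d).2 i⟩ : Q i) = 1 := by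
              apply Subtype.ext
              simp [hxj]
            rw [this]
            exact Subgroup.one_mem _
          · have : (⟨((x⁻¹ * d : G) : ∀ i, A i) i, hQ _ (x⁻¹ * d).2 i⟩ : Q i) =
                ⟨(d : ∀ i, A i) i, hQ d d.2 i⟩ := by
              apply Subtype.ext
              simp [hxi i hij]
            rw [this]
            exact hL i
      have h4 : d = x * (x⁻¹ * d) := by group
      rw [h4]
      exact N.mul_mem hdj h3
  refine ⟨fun i => N.comap (emb Q G hms i), hLn, ?_, ?_, ?_⟩
  · -- finiteness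
    have : Finite (G ⧸ N) := by
      have := Subgroup.finiteIndex_iff (H := N) |>.mpr hidx
      exact Subgroup.finite_quotient_of_finiteIndex
    have hex : ∀ i : {i | N.comap (emb Q G hms i) ≠ ⊤}, ∃ q : Q i, q ∉ N.comap (emb Q G hms i) := by
      intro i
      by_contra hcon
      push Not at hcon
      exact i.2 ((Subgroup.eq_top_iff' _).mpr hcon)
    choose q hq using hex
    rw [← Set.finite_coe_iff]
    refine Finite.of_injective (fun i : {i | N.comap (emb Q G hms i) ≠ ⊤} =>
      (QuotientGroup.mk (emb Q G hms i (q i)) : G ⧸ N)) ?_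
    intro i j hij
    by_contra hne
    have hij' := QuotientGroup.eq.mp hij
    have h5 := h1 _ hij' i
    have hne' : (i : ℕ) ≠ j := fun h => hne (Subtype.ext h)
    have e : (⟨(((emb Q G hms i (q i))⁻¹ * emb Q G hms j (q j) : G) : ∀ i, A i) i,
        hQ _ ((emb Q G hms i (q i))⁻¹ * emb Q G hms j (q j)).2 i⟩ : Q i) = (q i)⁻¹ := by
      apply Subtype.ext
      simp only [Subgroup.coe_mul, Subgroup.coe_inv, Pi.mul_apply, Pi.inv_apply, emb_val]
      rw [Pi.mulSingle_eq_same, Pi.mulSingle_eq_of_ne hne']
      simp
    rw [e] at h5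
    exact hq i ((Subgroup.inv_mem_iff _).mp h5)
  · intro i
    rw [Subgroup.index_comap]
    have := Subgroup.relIndex_dvd_index_of_normal N (emb Q G hms i).range
    exact Nat.le_of_dvd (Nat.pos_of_ne_zero hidx) this
  · intro g
    refine ⟨fun hg i => h1 g hg i, ?_⟩
    intro hg
    -- the subgroup of elements of finite support
    let D : Subgroup G :=
      { carrier := {g | {i | (g : ∀ i, A i) i ≠ 1}.Finite}
        mul_mem' := by
          intro g h hg hh
          refine (hg.union hh).subset ?_
          intro i hi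
          by_contra hcon
          simp only [Set.mem_union, Set.mem_ofPred_eq, not_or, not_not] at hcon
          exact hi (by simp [hcon.1, hcon.2])
        one_mem' := by simp
        inv_mem' := by
          intro g hg
          refine hg.subset ?_
          intro i hi hcon
          exact hi (by simpa using hcon) }
    have hD : D.Normal := ⟨by
      intro g hg h
      refine Set.Finite.subset hg ?_
      intro i hi hcon
      exact hi (by simp [hcon])⟩
    have htop : N ⊔ D = ⊤ := by
      apply hfin
      · infer_instance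
      · exact fun h0 => hidx (Nat.eq_zero_of_zero_dvd (h0 ▸ Subgroup.index_dvd_of_le le_sup_left))
      · intro g hg
        exact (le_sup_right : D ≤ N ⊔ D) hg
    have hgm : g ∈ N ⊔ D := by rw [htop]; exact Subgroup.mem_top g
    rw [← SetLike.mem_coe, Subgroup.mul_normal] at hgm
    obtain ⟨n, hn, d, hd, hnd⟩ := hgm
    have hdd : {i | (d : ∀ i, A i) i ≠ 1}.Finite := hd
    have hdN : d ∈ N := by
      apply h2 hdd.toFinset
      · intro i hi
        by_contra hcon
        exact hi (hdd.mem_toFinset.mpr hcon)
      · intro i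
        have e : (⟨(d : ∀ i, A i) i, hQ d d.2 i⟩ : Q i) =
            (⟨(n : ∀ i, A i) i, hQ n n.2 i⟩ : Q i)⁻¹ * ⟨(g : ∀ i, A i) i, hQ g g.2 i⟩ := by
          apply Subtype.ext
          have : (g : ∀ i, A i) i = (n : ∀ i, A i) i * (d : ∀ i, A i) i := by
            rw [← hnd]; rfl
          simp [this]
        rw [e]
        exact Subgroup.mul_mem _ (Subgroup.inv_mem _ (h1 n hn i)) (hg i)
    rw [← hnd]
    exact N.mul_mem hn hdN

end Pool.Agent.Q285.CG
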