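import Pool.Agent.Q22.CG.Stm

/-! # CG-CNT: counting the normal subgroups of `GG` (lemma job of helper22, helper285) -/

namespace Pool.Agent.Q285.CG

open Pool.Agent.Q22.CG

section Tv

variable {κ : Type} [Fintype κ] [DecidableEq κ] {F : Type} [Field F]

/-- a transvection as a unit -/
def tvU (i j : κ) (h : i ≠ j) (c : F) : (Matrix κ κ F)ˣ where
  val := Matrix.transvection i j c
  inv := Matrix.transvection i j (-c)
  val_inv := by
    rw [Matrix.transvection_mul_transvection_same i j h]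
    simp
  inv_val := by
    rw [Matrix.transvection_mul_transvection_same i j h]
    simp

variable {ι : Type} [Fintype ι] [DecidableEq ι]

/-- the element `[[1, e_{u0} v], [0, 1]]` -/
def vel (u0 : ι) (v : Fin 2 → F) : (Matrix (ι ⊕ Fin 2) (ι ⊕ Fin 2) F)ˣ :=
  tvU (Sum.inl u0) (Sum.inr 0) (by simp) (v 0) * tvU (Sum.inl u0) (Sum.inr 1) (by simp) (v 1)

theorem vel_mem (u0 : ι) (v : Fin 2 → F) : vel u0 v ∈ QG ι F := by
  apply Subgroup.mul_mem
  · apply Subgroup.subset_closure
    exact ⟨u0, Sum.inr 0, v 0, by simp, rfl⟩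
  · apply Subgroup.subset_closure
    exact ⟨u0, Sum.inr 1, v 1, by simp, rfl⟩

theorem vel_val (u0 : ι) (v : Fin 2 → F) : (vel u0 v).val =
    1 + Matrix.single (Sum.inl u0) (Sum.inr 0) (v 0) +
      Matrix.single (Sum.inl u0) (Sum.inr 1) (v 1) := by
  unfold vel tvU
  rw [Units.val_mul]
  simp only [Matrix.transvection]
  rw [add_mul, one_mul, mul_add, mul_one, Matrix.single_mul_single_of_ne _ _ _ _ (by simp)]
  abel

theorem vel_inl (u0 : ι) (v : Fin 2 → F) (u u' : ι) :
    (vel u0 v).val (Sum.inl u) (Sum.inl u') = if u = u' then 1 else 0 := by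
  rw [vel_val]
  simp [Matrix.add_apply, Matrix.one_apply, Matrix.single_apply]

theorem vel_inr (u0 : ι) (v : Fin 2 → F) (u : ι) (c : Fin 2) :
    (vel u0 v).val (Sum.inl u) (Sum.inr c) = if u = u0 then v c else 0 := by
  rw [vel_val]
  fin_cases c
  · by_cases h : u = u0
    · subst h; simp [Matrix.add_apply, Matrix.one_apply, Matrix.single_apply]
    · simp [Matrix.add_apply, Matrix.one_apply, Matrix.single_apply, h, Ne.symm h]
  · by_cases h : u = u0
    · subst h; simp [Matrix.add_apply, Matrix.one_apply, Matrix.single_apply]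
    · simp [Matrix.add_apply, Matrix.one_apply, Matrix.single_apply, h, Ne.symm h]

theorem vel_InV (u0 : ι) (v : Fin 2 → F) (ℓ : Submodule F (Fin 2 → F)) (hv : v ∈ ℓ) :
    InV ℓ (vel u0 v).val := by
  refine ⟨fun u u' => vel_inl u0 v u u', fun u => ?_⟩
  by_cases h : u = u0
  · have : (fun c : Fin 2 => (vel u0 v).val (Sum.inl u) (Sum.inr c)) = v := by
      funext c
      rw [vel_inr, if_pos h]
    rw [this]; exact hv
  · have : (fun c : Fin 2 => (vel u0 v).val (Sum.inl u) (Sum.inr c)) = 0 := by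
      funext c
      rw [vel_inr, if_neg h]; rfl
    rw [this]; exact ℓ.zero_mem

/-- conjugation by `diag(1, J)` -/
theorem conj_row (u0 : ι) (v : Fin 2 → F) (q' : Matrix (ι ⊕ Fin 2) (ι ⊕ Fin 2) F)
    (h : q' * Jd ι F = Jd ι F * (vel u0 v).val) :
    (fun c : Fin 2 => q' (Sum.inl u0) (Sum.inr c)) = ![v 1 - v 0, - v 0] := by
  have hR : ∀ c : Fin 2, (Jd ι F * (vel u0 v).val) (Sum.inl u0) (Sum.inr c) = v c := by
    intro c
    rw [Matrix.mul_apply, Fintype.sum_sum_type]
    have e1 : ∀ x : ι, Jd ι F (Sum.inl u0) (Sum.inl x) * (vel u0 v).val (Sum.inl x) (Sum.inr c) =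
        if u0 = x then v c else 0 := by
      intro x
      rw [vel_inr]
      simp only [Jd, Matrix.fromBlocks_apply₁₁, Matrix.one_apply]
      by_cases hx : u0 = x
      · subst hx; simp
      · simp [hx]
    have e2 : ∀ x : Fin 2, Jd ι F (Sum.inl u0) (Sum.inr x) * (vel u0 v).val (Sum.inr x) (Sum.inr c) = 0 := by
      intro x
      simp [Jd, Matrix.fromBlocks_apply₁₂]
    simp_rw [e1, e2]
    simp
  have hL : ∀ c : Fin 2, (q' * Jd ι F) (Sum.inl u0) (Sum.inr c) =
      q' (Sum.inl u0) (Sum.inr 0) * (!![0, 1; -1, -1] : Matrix (Fin 2) (Fin 2) F) 0 c +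
      q' (Sum.inl u0) (Sum.inr 1) * (!![0, 1; -1, -1] : Matrix (Fin 2) (Fin 2) F) 1 c := by
    intro c
    rw [Matrix.mul_apply, Fintype.sum_sum_type, Fin.sum_univ_two]
    have e1 : ∀ x : ι, q' (Sum.inl u0) (Sum.inl x) * Jd ι F (Sum.inl x) (Sum.inr c) = 0 := by
      intro x
      simp [Jd, Matrix.fromBlocks_apply₁₂]
    simp_rw [e1]
    simp [Jd, Matrix.fromBlocks_apply₂₂]
  have h0 := hL 0
  have h1 := hL 1
  rw [h, hR] at h0 h1
  simp at h0 h1
  funext c
  fin_cases c
  · simp only [Fin.zero_eta, Matrix.cons_val_zero]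
    rw [h0, h1]; ring
  · simp only [Fin.mk_one, Matrix.cons_val_one, Matrix.cons_val_fin_one]
    rw [h0]; ring

end Tv

theorem cnt (hcl : S_CL) (h1 : S_Q1) (h2 : S_Q2) (h3 : S_Q3) (h4 : S_Q4) (hj : S_J)
    (hg2 : S_G2) (hg3 : S_G3) (hg4 : S_G4) : S_CNT := by
  intro p _ hp a α ha hα
  have hQ : ∀ g ∈ GG p, ∀ i, g i ∈ QG (Ix i) (ZMod (p i)) := fun g hg i => hg3 p g hg i
  have hcard : ∀ i, Fintype.card (Ix i) = 3 * 3 ^ i := by intro i; simp
  have hcard3 : ∀ i, 3 ≤ Fintype.card (Ix i) := by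
    intro i
    rw [hcard]
    have := Nat.one_le_pow i 3 (by norm_num)
    omega
  have hcop : ∀ i, Nat.Coprime (Fintype.card (Ix i)) (p i - 1) := by
    intro i
    rw [hcard, ← pow_succ']
    apply Nat.Coprime.pow_left
    have h := hp.mod3 i
    rw [Nat.prime_three.coprime_iff_not_dvd]
    rintro ⟨k, hk⟩
    have h6 := hp.big i
    omega
  have hcl' : ∀ N : Subgroup (GG p), N.Normal → N.index ≠ 0 →
      ∃ L : ∀ i, Subgroup (QG (Ix i) (ZMod (p i))), (∀ i, (L i).Normal) ∧
        {i | L i ≠ ⊤}.Finite ∧ (∀ i, (L i).index ≤ N.index) ∧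
        ∀ g : GG p, g ∈ N ↔
          ∀ i, (⟨(g : Amb p) i, hQ g g.2 i⟩ : QG (Ix i) (ZMod (p i))) ∈ L i := by
    refine hcl (fun i => (Matrix (Ix i ⊕ Fin 2) (Ix i ⊕ Fin 2) (ZMod (p i)))ˣ)
      (fun i => QG (Ix i) (ZMod (p i))) (GG p) ?_ ?_ hQ ?_
    · intro i L hL g hg
      exact h2 (Ix i) (p i) (hcard3 i) (hcop i) L hL g hg
    · intro i g hg
      exact hg2 p i g hg
    · intro N hN hi hf
      exact hg4 p N hN hi hf
  choose! L hLn hLf hLi hLm using hcl'
  have hms : ∀ (N : Subgroup (GG p)), N.Normal → N.index ≠ 0 → ∀ i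
      (q : QG (Ix i) (ZMod (p i))), q ∈ L N i ↔
        (⟨Pi.mulSingle i (q : (Matrix (Ix i ⊕ Fin 2) (Ix i ⊕ Fin 2) (ZMod (p i)))ˣ),
          hg2 p i q q.2⟩ : GG p) ∈ N := by
    intro N hN hi i q
    rw [hLm N hN hi]
    constructor
    · intro hq j
      by_cases hji : j = i
      · subst hji
        have : (⟨(Pi.mulSingle j (q : (Matrix (Ix j ⊕ Fin 2) (Ix j ⊕ Fin 2) (ZMod (p j)))ˣ) : Amb p) j,
            hQ _ (hg2 p j q q.2) j⟩ : QG (Ix j) (ZMod (p j))) = q := by
          apply Subtype.ext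
          simp
        rw [this]; exact hq
      · have : (⟨(Pi.mulSingle i (q : (Matrix (Ix i ⊕ Fin 2) (Ix i ⊕ Fin 2) (ZMod (p i)))ˣ) : Amb p) j,
            hQ _ (hg2 p i q q.2) j⟩ : QG (Ix j) (ZMod (p j))) = 1 := by
          apply Subtype.ext
          simp [Pi.mulSingle_eq_of_ne hji]
        rw [this]; exact Subgroup.one_mem _
    · intro hq
      have h := hq i
      have : (⟨(Pi.mulSingle i (q : (Matrix (Ix i ⊕ Fin 2) (Ix i ⊕ Fin 2) (ZMod (p i)))ˣ) : Amb p) i,
          hQ _ (hg2 p i q q.2) i⟩ : QG (Ix i) (ZMod (p i))) = q := by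
        apply Subtype.ext
        simp
      rw [this] at h; exact h
  -- large coordinates
  have htop : ∀ (N : Subgroup (GG p)), N.Normal → N.index ≠ 0 → ∀ n i, N.index ≤ n → n < p i →
      ∀ j, i ≤ j → L N j = ⊤ := by
    intro N hN hi n i hn hni j hij
    by_contra hcon
    have h5 := h3 (Ix j) (p j) (L N j) (hLn N hN hi j) hcon
    have h6 := hLi N hN hi j
    have h7 := hp.mono.monotone hij
    omega
  have hdet : ∀ (N N' : Subgroup (GG p)), N.Normal → N.index ≠ 0 → N'.Normal → N'.index ≠ 0 →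
      (∀ j, L N j = L N' j) → N = N' := by
    intro N N' hN hi hN' hi' h
    ext g
    rw [hLm N hN hi, hLm N' hN' hi']
    simp_rw [h]
  have hfin : ∀ n, {N : Subgroup (GG p) | N.Normal ∧ N.index ≠ 0 ∧ N.index ≤ n}.Finite := by
    intro n
    have hn0 : n < p (n + 1) := by
      have := hp.mono.le_apply (x := n + 1)
      omega
    rw [← Set.finite_coe_iff]
    have hF : ∀ j : ℕ, Finite (Subgroup (QG (Ix j) (ZMod (p j)))) := by
      intro j; infer_instance
    refine Finite.of_injective (β := ∀ j : Fin (n + 1), Subgroup (QG (Ix j) (ZMod (p j))))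
      (fun N j => L N.1 j) ?_
    intro N N' h
    apply Subtype.ext
    apply hdet N.1 N'.1 N.2.1 N.2.2.1 N'.2.1 N'.2.2.1
    intro j
    by_cases hjn : j < n + 1
    · exact congrFun h ⟨j, hjn⟩
    · rw [htop N.1 N.2.1 N.2.2.1 n (n + 1) N.2.2.2 hn0 j (by omega),
        htop N'.1 N'.2.1 N'.2.2.1 n (n + 1) N'.2.2.2 hn0 j (by omega)]
  refine ⟨hfin, ?_, ?_⟩
  · -- invariant subgroups
    intro n i hni
    classical
    unfold invCount
    -- invariance of the local groups
    have hinv : ∀ (N : Subgroup (GG p)), N.Normal → N.index ≠ 0 → N.map α.toMonoidHom = N → ∀ j,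
        L N j = ⊤ ∨ (∀ g : QG (Ix j) (ZMod (p j)), g ∈ L N j ↔ InV (⊥ : Submodule (ZMod (p j)) (Fin 2 → ZMod (p j)))
          (g : (Matrix (Ix j ⊕ Fin 2) (Ix j ⊕ Fin 2) (ZMod (p j)))ˣ).val) ∨
        (∀ g : QG (Ix j) (ZMod (p j)), g ∈ L N j ↔ InV (⊤ : Submodule (ZMod (p j)) (Fin 2 → ZMod (p j)))
          (g : (Matrix (Ix j ⊕ Fin 2) (Ix j ⊕ Fin 2) (ZMod (p j)))ˣ).val) := by
      intro N hN hi hmap j
      rcases h1 (Ix j) (p j) (hcard3 j) (hcop j) (L N j) (hLn N hN hi j) with h | ⟨ℓ, hℓ⟩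
      · exact Or.inl h
      right
      have hℓJ : ∀ v ∈ ℓ, (![v 1 - v 0, - v 0] : Fin 2 → ZMod (p j)) ∈ ℓ := by
        intro v hv
        let u0 : Ix j := (0, ⟨0, by positivity⟩)
        let q : QG (Ix j) (ZMod (p j)) := ⟨vel u0 v, vel_mem u0 v⟩
        have hq : q ∈ L N j := (hℓ q).mpr (vel_InV u0 v ℓ hv)
        have hqN := (hms N hN hi j q).mp hq
        have hαN : α (⟨Pi.mulSingle j (q : (Matrix (Ix j ⊕ Fin 2) (Ix j ⊕ Fin 2) (ZMod (p j)))ˣ),
            hg2 p j q q.2⟩ : GG p) ∈ N := by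
          rw [← hmap]
          exact Subgroup.mem_map_of_mem _ hqN
        have hc := (hLm N hN hi _).mp hαN j
        have hI := ((hℓ _).mp hc).2 u0
        have hval : (((α (⟨Pi.mulSingle j (q : (Matrix (Ix j ⊕ Fin 2) (Ix j ⊕ Fin 2) (ZMod (p j)))ˣ),
            hg2 p j q q.2⟩ : GG p) : GG p) : Amb p) j) = a j * vel u0 v * (a j)⁻¹ := by
          rw [hα]
          simp [q]
        have hmul : ((((α (⟨Pi.mulSingle j (q : (Matrix (Ix j ⊕ Fin 2) (Ix j ⊕ Fin 2) (ZMod (p j)))ˣ),
            hg2 p j q q.2⟩ : GG p) : GG p) : Amb p) j)).val * Jd (Ix j) (ZMod (p j)) =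
            Jd (Ix j) (ZMod (p j)) * (vel u0 v).val := by
          rw [hval, ← ha j, ← Units.val_mul, ← Units.val_mul]
          congr 1
          group
        have hrow := conj_row u0 v _ hmul
        rw [hrow] at hI
        exact hI
      rcases hj (p j) (hp.mod3 j) ℓ hℓJ with h | h
      · left; rw [← h]; exact hℓ
      · right; rw [← h]; exact hℓ
    let code : Subgroup (GG p) → Fin i → Fin 3 := fun N j =>
      if L N j = ⊤ then 0 else if (∀ g : QG (Ix (j : ℕ)) (ZMod (p j)), g ∈ L N j ↔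
        InV (⊥ : Submodule (ZMod (p j)) (Fin 2 → ZMod (p j)))
          (g : (Matrix (Ix (j : ℕ) ⊕ Fin 2) (Ix (j : ℕ) ⊕ Fin 2) (ZMod (p j)))ˣ).val) then 1 else 2
    have hle := Nat.card_le_card_of_injective
      (α := {N : Subgroup (GG p) // N.Normal ∧ N.map α.toMonoidHom = N ∧ N.index ≠ 0 ∧ N.index ≤ n})
      (β := Fin i → Fin 3) (fun N => code N.1) (by
        intro N N' h
        apply Subtype.ext
        apply hdet N.1 N'.1 N.2.1 N.2.2.2.1 N'.2.1 N'.2.2.2.1
        intro j
        by_cases hji : j < i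
        · have hc : code N.1 ⟨j, hji⟩ = code N'.1 ⟨j, hji⟩ := congrFun h ⟨j, hji⟩
          simp only [code] at hc
          have hN := hinv N.1 N.2.1 N.2.2.2.1 N.2.2.1 j
          have hN' := hinv N'.1 N'.2.1 N'.2.2.2.1 N'.2.2.1 j
          by_cases hT : L N.1 j = ⊤
          · rw [if_pos hT] at hc
            by_cases hT' : L N'.1 j = ⊤
            · rw [hT, hT']
            · rw [if_neg hT'] at hc
              split_ifs at hc <;> simp at hc
          · rw [if_neg hT] at hc
            by_cases hT' : L N'.1 j = ⊤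
            · rw [if_pos hT'] at hc
              split_ifs at hc <;> simp at hc
            · rw [if_neg hT'] at hc
              split_ifs at hc with hA hB hB
              · ext g
                rw [hA g, hB g]
              · simp at hc
              · simp at hc
              · have hN2 := (hN.resolve_left hT).resolve_left hA
                have hN2' := (hN'.resolve_left hT').resolve_left hB
                ext g
                rw [hN2 g, hN2' g]
        · rw [htop N.1 N.2.1 N.2.2.2.1 n i N.2.2.2.2 hni j (by omega),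
            htop N'.1 N'.2.1 N'.2.2.2.1 n i N'.2.2.2.2 hni j (by omega)])
    refine hle.trans ?_
    simp
  · intro n i hn
    obtain ⟨hA, hB, hC⟩ := h4 (Ix i) (p i)
    choose V hVn hV using hA
    let ℓ : ZMod (p i) → Submodule (ZMod (p i)) (Fin 2 → ZMod (p i)) :=
      fun c => Submodule.span (ZMod (p i)) {![1, c]}
    let π : GG p →* QG (Ix i) (ZMod (p i)) :=
      { toFun := fun g => ⟨(g : Amb p) i, hQ g g.2 i⟩
        map_one' := rfl
        map_mul' := fun _ _ => rfl }
    have hsurj : Function.Surjective π := by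
      intro q
      refine ⟨⟨Pi.mulSingle i (q : (Matrix (Ix i ⊕ Fin 2) (Ix i ⊕ Fin 2) (ZMod (p i)))ˣ),
        hg2 p i q q.2⟩, ?_⟩
      apply Subtype.ext
      simp [π]
    have hidx : ∀ H : Subgroup (QG (Ix i) (ZMod (p i))), H.index ≠ 0 ∧ H.index ≤ n := by
      intro H
      have hm := H.card_mul_index
      have hpos : 0 < Nat.card H := Nat.card_pos
      have hposQ : 0 < Nat.card (QG (Ix i) (ZMod (p i))) := Nat.card_pos
      rw [hcard] at hC
      constructor
      · intro h0
        rw [h0, mul_zero] at hm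
        omega
      · have : H.index ≤ Nat.card H * H.index := Nat.le_mul_of_pos_left _ hpos
        omega
    unfold normCount
    have hFin : Finite {N : Subgroup (GG p) // N.Normal ∧ N.index ≠ 0 ∧ N.index ≤ n} :=
      (hfin n).to_subtype
    have hle := Nat.card_le_card_of_injective (α := ZMod (p i))
      (β := {N : Subgroup (GG p) // N.Normal ∧ N.index ≠ 0 ∧ N.index ≤ n})
      (fun c => ⟨(V (ℓ c)).comap π, (hVn (ℓ c)).comap π, by
        rw [Subgroup.index_comap_of_surjective _ hsurj]; exact hidx _⟩) (by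
        intro c c' h
        have h' : (V (ℓ c)).comap π = (V (ℓ c')).comap π := congrArg Subtype.val h
        have hV' : V (ℓ c) = V (ℓ c') := Subgroup.comap_injective hsurj h'
        have hℓ : ℓ c = ℓ c' := by
          apply hB
          intro g
          rw [← hV, ← hV, hV']
        have hm : (![1, c] : Fin 2 → ZMod (p i)) ∈ ℓ c' := by
          rw [← hℓ]
          exact Submodule.subset_span rfl
        obtain ⟨t, ht⟩ := Submodule.mem_span_singleton.mp hm
        have h0 := congrFun ht 0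
        have h1' := congrFun ht 1
        simp at h0 h1'
        rw [h0, one_mul] at h1'
        exact h1'.symm)
    rwa [Nat.card_zmod] at hle

end Pool.Agent.Q285.CG
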