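import Pool.Agent.Q240.CG.Stm
import Pool.Agent.Q240.CD.All
import Pool.Agent.Q280.CD2.Del

set_option autoImplicit false

/-!
# Project CG of helper240: job Rate1 (the smallest value of the form for the masses with one more
power of the node)
-/

open Polynomial Filter Topology Finset MeasureTheory

namespace Pool.Agent.Q285.CG

open Pool.Agent.Q240.CD Pool.Agent.Q240.CG Pool.Agent.Q280.CD2

/-- the real form of the product formula -/
lemma sin_real {a : ℝ} (ha : 0 < a) (n : ℕ) (x : ℝ) :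
    Real.sin (a * x) = a * x * (∏ k ∈ range n, (1 - x ^ 2 / xk a (k + 1) ^ 2)) * Sr a n x := by
  have h1 := a_spP a n (x : ℂ) ha
  rw [(a_spB a n).2.2.2.1 x] at h1
  apply Complex.ofReal_injective
  push_cast
  exact h1

lemma rate1_pt {a ε γ : ℝ} {γs : ℕ → ℝ} (ha : 0 < a) (N : ℕ) (h0 : 0 < γ)
    (hx1 : 2 * xk a 1 ^ 2 ≤ γ ^ 2) (hpos : ∀ j < N, 0 < γs j) (hlt : ∀ j < N, γs j ≤ γ)
    (hε0 : 0 ≤ ε) (hε1 : ε ≤ 1) (hb : ∀ j < N, xk a (j + 2) ≤ ε * γs j) :
    γ * (|∏ j ∈ range N, (1 - γ ^ 2 / γs j ^ 2)| * |Sr a (N + 1) γ|) ≤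
      ε ^ (2 * N) * (2 * xk a 1 ^ 2 / (a * γ ^ 2)) := by
  have hxp : ∀ k : ℕ, 0 < k → 0 < xk a k := by
    intro k hk
    unfold xk
    have : (0 : ℝ) < k := by exact_mod_cast hk
    positivity
  set P : ℝ := ∏ j ∈ range N, |1 - γ ^ 2 / xk a (j + 2) ^ 2| with hP
  have hP0 : 0 ≤ P := Finset.prod_nonneg fun j _ => abs_nonneg _
  have h1 : |∏ j ∈ range N, (1 - γ ^ 2 / γs j ^ 2)| ≤ ε ^ (2 * N) * P := by
    rw [Finset.abs_prod, hP]
    have : (∏ j ∈ range N, |1 - γ ^ 2 / γs j ^ 2|) ≤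
        ∏ j ∈ range N, (ε ^ 2 * |1 - γ ^ 2 / xk a (j + 2) ^ 2|) := by
      refine Finset.prod_le_prod (fun j _ => abs_nonneg _) fun j hj => ?_
      have hj' := Finset.mem_range.1 hj
      have hg := hpos j hj'
      have hgl := hlt j hj'
      have hx := hxp (j + 2) (by omega)
      have hxe := hb j hj'
      have hxg : xk a (j + 2) ≤ γs j := hxe.trans (by nlinarith)
      have e1 : |1 - γ ^ 2 / γs j ^ 2| = (γ ^ 2 - γs j ^ 2) / γs j ^ 2 := by
        have : 1 - γ ^ 2 / γs j ^ 2 = -((γ ^ 2 - γs j ^ 2) / γs j ^ 2) := by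
          field_simp
          ring
        rw [this, abs_neg, abs_of_nonneg]
        apply div_nonneg _ (sq_nonneg _)
        nlinarith
      have e2 : |1 - γ ^ 2 / xk a (j + 2) ^ 2| = (γ ^ 2 - xk a (j + 2) ^ 2) / xk a (j + 2) ^ 2 := by
        have : 1 - γ ^ 2 / xk a (j + 2) ^ 2 = -((γ ^ 2 - xk a (j + 2) ^ 2) / xk a (j + 2) ^ 2) := by
          field_simp
          ring
        rw [this, abs_neg, abs_of_nonneg]
        apply div_nonneg _ (sq_nonneg _)
        nlinarith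
      rw [e1, e2]
      have hsq : xk a (j + 2) ^ 2 ≤ ε ^ 2 * γs j ^ 2 := by
        rw [← mul_pow]
        exact pow_le_pow_left₀ hx.le hxe 2
      have hx2 : 0 < xk a (j + 2) ^ 2 := by positivity
      have hg2 : 0 < γs j ^ 2 := by positivity
      have hxg2 : xk a (j + 2) ^ 2 ≤ γs j ^ 2 := pow_le_pow_left₀ hx.le hxg 2
      have hgg2 : γs j ^ 2 ≤ γ ^ 2 := pow_le_pow_left₀ hg.le hgl 2
      rw [div_le_iff₀ hg2]
      have e3 : ε ^ 2 * ((γ ^ 2 - xk a (j + 2) ^ 2) / xk a (j + 2) ^ 2) * γs j ^ 2 =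
          (ε ^ 2 * γs j ^ 2) * (γ ^ 2 - xk a (j + 2) ^ 2) / xk a (j + 2) ^ 2 := by ring
      rw [e3, le_div_iff₀ hx2]
      have h4 : (γ ^ 2 - γs j ^ 2) * xk a (j + 2) ^ 2 ≤ (γ ^ 2 - xk a (j + 2) ^ 2) * xk a (j + 2) ^ 2 :=
        mul_le_mul_of_nonneg_right (by linarith) hx2.le
      have h5 : (γ ^ 2 - xk a (j + 2) ^ 2) * xk a (j + 2) ^ 2 ≤
          (γ ^ 2 - xk a (j + 2) ^ 2) * (ε ^ 2 * γs j ^ 2) :=
        mul_le_mul_of_nonneg_left hsq (by linarith)
      linarith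
    refine this.trans (le_of_eq ?_)
    rw [Finset.prod_mul_distrib, Finset.prod_const, Finset.card_range, ← pow_mul]
  have h2 := sin_real ha (N + 1) γ
  rw [Finset.prod_range_succ'] at h2
  have h3 : a * γ * (P * |1 - γ ^ 2 / xk a 1 ^ 2|) * |Sr a (N + 1) γ| ≤ 1 := by
    have : a * γ * (P * |1 - γ ^ 2 / xk a 1 ^ 2|) * |Sr a (N + 1) γ| = |Real.sin (a * γ)| := by
      rw [h2, abs_mul, abs_mul, abs_mul (_ : ℝ) (1 - γ ^ 2 / xk a (0 + 1) ^ 2), Finset.abs_prod,
        abs_of_pos (mul_pos ha h0), hP]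
    rw [this]
    exact Real.abs_sin_le_one _
  have hx := hxp 1 one_pos
  have hx2 : 0 < xk a 1 ^ 2 := by positivity
  have h4 : γ ^ 2 / (2 * xk a 1 ^ 2) ≤ |1 - γ ^ 2 / xk a 1 ^ 2| := by
    have e : γ ^ 2 / (2 * xk a 1 ^ 2) ≤ -(1 - γ ^ 2 / xk a 1 ^ 2) := by
      have e1 : γ ^ 2 / (2 * xk a 1 ^ 2) = (γ ^ 2 / xk a 1 ^ 2) / 2 := by
        rw [div_div]
        ring
      have e2 : 2 ≤ γ ^ 2 / xk a 1 ^ 2 := by
        rw [le_div_iff₀ hx2]
        exact hx1
      rw [e1]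
      linarith
    exact e.trans (neg_le_abs _)
  have h5 : γ * (P * |Sr a (N + 1) γ|) ≤ 2 * xk a 1 ^ 2 / (a * γ ^ 2) := by
    have h6 : a * γ * (P * (γ ^ 2 / (2 * xk a 1 ^ 2))) * |Sr a (N + 1) γ| ≤ 1 := by
      refine le_trans ?_ h3
      exact mul_le_mul_of_nonneg_right (mul_le_mul_of_nonneg_left
        (mul_le_mul_of_nonneg_left h4 hP0) (mul_pos ha h0).le) (abs_nonneg _)
    rw [le_div_iff₀ (by positivity)]
    have e : a * γ * (P * (γ ^ 2 / (2 * xk a 1 ^ 2))) * |Sr a (N + 1) γ| =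
        (γ * (P * |Sr a (N + 1) γ|)) * (a * γ ^ 2) / (2 * xk a 1 ^ 2) := by
      ring
    rw [e, div_le_one (by positivity)] at h6
    exact h6
  calc γ * (|∏ j ∈ range N, (1 - γ ^ 2 / γs j ^ 2)| * |Sr a (N + 1) γ|)
      ≤ γ * ((ε ^ (2 * N) * P) * |Sr a (N + 1) γ|) :=
        mul_le_mul_of_nonneg_left (mul_le_mul_of_nonneg_right h1 (abs_nonneg _)) h0.le
    _ = ε ^ (2 * N) * (γ * (P * |Sr a (N + 1) γ|)) := by ring
    _ ≤ ε ^ (2 * N) * (2 * xk a 1 ^ 2 / (a * γ ^ 2)) :=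
        mul_le_mul_of_nonneg_left h5 (pow_nonneg hε0 _)

/-- the asymptotics -/
lemma rate1_asym {n : ℝ → ℕ} {κ c K D : ℝ} (hκ : 0 < κ) (hc : c < 4 * κ) (hK : 0 < K) (hD : 0 < D)
    (hn : Tendsto (fun a : ℝ => (n a : ℝ) / a ^ 2) atTop (𝓝 κ)) :
    ∀ᶠ a : ℝ in atTop, K * (D * Real.log a / a) ^ (4 * (n a - 1)) ≤
      Real.exp (-(c * a ^ 2 * Real.log a)) := by
  have hL : Tendsto Real.log atTop atTop := Real.tendsto_log_atTop
  have hsq : Tendsto (fun a : ℝ => a ^ 2) atTop atTop := tendsto_pow_atTop (by norm_num)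
  have hsqL : Tendsto (fun a : ℝ => a ^ 2 * Real.log a) atTop atTop := hsq.atTop_mul_atTop₀ hL
  have t1 : Tendsto (fun a : ℝ => Real.log K / (a ^ 2 * Real.log a)) atTop (𝓝 0) :=
    hsqL.const_div_atTop _
  have t2 : Tendsto (fun a : ℝ => ((n a : ℝ) - 1) / a ^ 2) atTop (𝓝 (κ - 0)) := by
    have : Tendsto (fun a : ℝ => (n a : ℝ) / a ^ 2 - 1 / a ^ 2) atTop (𝓝 (κ - 0)) :=
      hn.sub (hsq.const_div_atTop _)
    refine this.congr fun a => ?_
    ring
  have t3 : Tendsto (fun a : ℝ => (Real.log D + Real.log (Real.log a)) / Real.log a - 1) atTop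
      (𝓝 (0 + 0 - 1)) := by
    have e1 : Tendsto (fun a : ℝ => Real.log D / Real.log a) atTop (𝓝 0) := hL.const_div_atTop _
    have e2 : Tendsto (fun y : ℝ => Real.log y / y) atTop (𝓝 0) :=
      Real.isLittleO_log_id_atTop.tendsto_div_nhds_zero
    have e3 : Tendsto (fun a : ℝ => Real.log (Real.log a) / Real.log a) atTop (𝓝 0) := e2.comp hL
    refine ((e1.add e3).sub tendsto_const_nhds).congr fun a => ?_
    ring
  have t4 : Tendsto (fun a : ℝ => Real.log K / (a ^ 2 * Real.log a) +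
      4 * (((n a : ℝ) - 1) / a ^ 2) * ((Real.log D + Real.log (Real.log a)) / Real.log a - 1)) atTop
      (𝓝 (0 + 4 * (κ - 0) * (0 + 0 - 1))) := t1.add ((t2.const_mul 4).mul t3)
  have t5 : ∀ᶠ a : ℝ in atTop, Real.log K / (a ^ 2 * Real.log a) +
      4 * (((n a : ℝ) - 1) / a ^ 2) * ((Real.log D + Real.log (Real.log a)) / Real.log a - 1) < -c :=
    t4.eventually (gt_mem_nhds (by linarith))
  have t6 : ∀ᶠ a : ℝ in atTop, 0 < ((n a : ℝ) - 1) / a ^ 2 :=
    t2.eventually (lt_mem_nhds (by linarith))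
  filter_upwards [t5, t6, eventually_gt_atTop (1 : ℝ), hL.eventually_gt_atTop 1] with a h5 h6 ha hla
  have ha0 : 0 < a := by linarith
  have ha2 : 0 < a ^ 2 := by positivity
  have hl0 : 0 < Real.log a := by linarith
  have hn1 : 1 ≤ n a := by
    by_contra h
    have : n a = 0 := by omega
    rw [this] at h6
    have : ((0 : ℕ) : ℝ) - 1 < 0 := by norm_num
    have := div_neg_of_neg_of_pos this ha2
    linarith
  have e : K * (D * Real.log a / a) ^ (4 * (n a - 1)) =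
      Real.exp (Real.log K + (4 * (n a - 1) : ℕ) * (Real.log D + Real.log (Real.log a) - Real.log a)) := by
    rw [Real.exp_add, Real.exp_log hK, Real.exp_nat_mul, Real.exp_sub, Real.exp_add, Real.exp_log hD,
      Real.exp_log hl0, Real.exp_log ha0]
  rw [e]
  apply Real.exp_le_exp.2
  have e1 : ((4 * (n a - 1) : ℕ) : ℝ) = 4 * ((n a : ℝ) - 1) := by
    push_cast [Nat.cast_sub hn1]
    ring
  rw [e1]
  have h7 : Real.log K / (a ^ 2 * Real.log a) +
      4 * (((n a : ℝ) - 1) / a ^ 2) * ((Real.log D + Real.log (Real.log a)) / Real.log a - 1) =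
      (Real.log K + 4 * ((n a : ℝ) - 1) * (Real.log D + Real.log (Real.log a) - Real.log a)) /
        (a ^ 2 * Real.log a) := by
    field_simp
  rw [h7, div_lt_iff₀ (by positivity)] at h5
  linarith

theorem rate1 : S_Rate1 := by
  intro γ m hγ h0 hm hsum hlow n κ c hκ hc hn
  obtain ⟨c0, hc0, hlow⟩ := hlow
  have hgp : ∀ j, 0 < γ j := fun j => lt_of_lt_of_le h0 (hγ.monotone (Nat.zero_le j))
  have hm0 : ∀ j, 0 ≤ m j := fun j => zero_le_one.trans (hm j)
  have hs4 : Summable fun j => m j / γ j ^ 4 := by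
    refine Summable.of_nonneg_of_le (fun j => div_nonneg (hm0 j) (pow_nonneg (hgp j).le _))
      (fun j => ?_) (hsum.mul_left (1 / (γ 0 ^ 2) ^ (9 / 8 : ℝ)))
    have h1 : (γ j) ^ 4 = (γ j ^ 2) ^ (9 / 8 : ℝ) * (γ j ^ 2) ^ (7 / 8 : ℝ) := by
      rw [← Real.rpow_add (by have := hgp j; positivity)]
      norm_num
      ring
    have h2 : (γ 0 ^ 2) ^ (9 / 8 : ℝ) ≤ (γ j ^ 2) ^ (9 / 8 : ℝ) := by
      apply Real.rpow_le_rpow (sq_nonneg _) _ (by norm_num)
      exact pow_le_pow_left₀ h0.le (hγ.monotone (Nat.zero_le j)) 2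
    have h3 : 0 < (γ 0 ^ 2) ^ (9 / 8 : ℝ) := by positivity
    have h4 : 0 < (γ j ^ 2) ^ (7 / 8 : ℝ) := by
      have := hgp j
      positivity
    rw [h1, div_mul_div_comm, one_mul]
    exact div_le_div_of_nonneg_left (hm0 j) (by positivity)
      (mul_le_mul_of_nonneg_right h2 h4.le)
  set T4 : ℝ := ∑' j, m j / γ j ^ 4 with hT
  have hT0 : 0 ≤ T4 := tsum_nonneg fun j => div_nonneg (hm0 j) (pow_nonneg (hgp j).le _)
  set D : ℝ := 6 * Real.pi / c0 with hD
  have hD0 : 0 < D := by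
    have := Real.pi_pos
    positivity
  set K : ℝ := 8 * Real.pi ^ 4 * T4 + 1 with hK
  have hK0 : 0 < K := by
    have := Real.pi_pos
    positivity
  have hL : Tendsto Real.log atTop atTop := Real.tendsto_log_atTop
  have hsq : Tendsto (fun a : ℝ => a ^ 2) atTop atTop := tendsto_pow_atTop (by norm_num)
  have t1 : ∀ᶠ a : ℝ in atTop, (n a : ℝ) / a ^ 2 < κ + 1 := hn.eventually (gt_mem_nhds (by linarith))
  have t2 : ∀ᶠ a : ℝ in atTop, κ / 2 < (n a : ℝ) / a ^ 2 := hn.eventually (lt_mem_nhds (by linarith))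
  have t3 : ∀ᶠ a : ℝ in atTop, D * Real.log a / a < 1 := by
    have : Tendsto (fun a : ℝ => D * (Real.log a / a)) atTop (𝓝 (D * 0)) :=
      (Real.isLittleO_log_id_atTop.tendsto_div_nhds_zero).const_mul D
    rw [mul_zero] at this
    filter_upwards [this.eventually (gt_mem_nhds one_pos)] with a h
    rw [mul_div_assoc]
    exact h
  have t4 : ∀ᶠ a : ℝ in atTop, 2 * xk a 1 ^ 2 ≤ γ 0 ^ 2 := by
    have : Tendsto (fun a : ℝ => (2 * Real.pi ^ 2) / a ^ 2) atTop (𝓝 0) := hsq.const_div_atTop _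
    filter_upwards [this.eventually (gt_mem_nhds (show (0 : ℝ) < γ 0 ^ 2 by positivity))] with a h
    unfold xk
    have e : 2 * (Real.pi * ((1 : ℕ) : ℝ) / a) ^ 2 = (2 * Real.pi ^ 2) / a ^ 2 := by
      push_cast
      ring
    rw [e]
    exact h.le
  have t5 := rate1_asym hκ hc hK0 hD0 hn
  filter_upwards [t1, t2, t3, t4, t5, eventually_ge_atTop (κ + 4), hsq.eventually_ge_atTop (4 / κ),
    hL.eventually_gt_atTop 1] with a h1 h2 h3 h4 h5 haκ ha2 hla r0 hPM hEx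
  have ha1 : 1 < a := by linarith
  have ha0 : 0 < a := by linarith
  have hasq : 0 < a ^ 2 := by positivity
  have hl0 : 0 < Real.log a := by linarith
  have hn2 : 2 ≤ (n a : ℝ) := by
    rw [lt_div_iff₀ hasq] at h2
    rw [div_le_iff₀ hκ] at ha2
    nlinarith
  have hn2' : 2 ≤ n a := by exact_mod_cast hn2
  have hna3 : (n a : ℝ) + 3 ≤ a ^ 3 := by
    rw [div_lt_iff₀ hasq] at h1
    have : 3 ≤ 3 * a ^ 2 := by nlinarith
    nlinarith
  have hlogn : Real.log ((n a : ℝ) + 3) ≤ 3 * Real.log a := by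
    have := Real.log_le_log (by positivity) hna3
    rw [Real.log_pow] at this
    exact_mod_cast this
  obtain ⟨N, hN⟩ : ∃ N, n a = N + 1 := ⟨n a - 1, by omega⟩
  have hN' : n a - 1 = N := by omega
  set ε : ℝ := D * Real.log a / a with hε
  have hε0 : 0 ≤ ε := by positivity
  have hb : ∀ j < N, xk a (j + 2) ≤ ε * γ j := by
    intro j hj
    have hj1 := hlow j
    have hjr : (j : ℝ) + 3 ≤ (n a : ℝ) + 3 := by
      have : (j : ℝ) ≤ n a := by exact_mod_cast (by omega : j ≤ n a)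
      linarith
    have hlj : Real.log ((j : ℝ) + 3) ≤ 3 * Real.log a :=
      (Real.log_le_log (by positivity) hjr).trans hlogn
    have hlj0 : 0 < Real.log ((j : ℝ) + 3) := Real.log_pos (by
      have : (0 : ℝ) ≤ j := Nat.cast_nonneg j
      linarith)
    have h6 : c0 * ((j : ℝ) + 1) / (3 * Real.log a) ≤ γ j := by
      refine le_trans ?_ hj1
      exact div_le_div_of_nonneg_left (by positivity) hlj0 hlj
    unfold xk
    rw [hε, hD]
    have h7 : Real.pi * ((j + 2 : ℕ) : ℝ) / a ≤ 6 * Real.pi / c0 * Real.log a / a *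
        (c0 * ((j : ℝ) + 1) / (3 * Real.log a)) := by
      have e : 6 * Real.pi / c0 * Real.log a / a * (c0 * ((j : ℝ) + 1) / (3 * Real.log a)) =
          Real.pi * (2 * ((j : ℝ) + 1)) / a := by
        field_simp
        ring
      rw [e]
      push_cast
      have := Real.pi_pos
      have hj0 : (0 : ℝ) ≤ j := Nat.cast_nonneg j
      apply div_le_div_of_nonneg_right _ ha0.le
      apply mul_le_mul_of_nonneg_left _ this.le
      linarith
    refine h7.trans ?_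
    have := Real.pi_pos
    gcongr
  rw [hN'] at hPM hEx h5
  refine (ex_min hPM hEx (QD_deg (fun j => γ j ^ 2) N) ?_).trans ?_
  · rw [QD_eval]
    simp
  refine le_trans ?_ h5
  have hdeg : (QD (fun j => γ j ^ 2) N * QD (fun j => γ j ^ 2) N).natDegree ≤ 2 * N := by
    refine natDegree_mul_le.trans ?_
    have := QD_deg (fun j => γ j ^ 2) N
    omega
  have hsm := summable_eval hPM _ hdeg
  have hpt : ∀ i, γ i ^ 2 * (2 * m i * Sr a (n a) (Real.sqrt (γ i ^ 2)) ^ 2) *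
      (QD (fun j => γ j ^ 2) N * QD (fun j => γ j ^ 2) N).eval (γ i ^ 2) ≤
      (8 * Real.pi ^ 4 * ε ^ (4 * N)) * (m i / γ i ^ 4) := by
    intro i
    rw [Real.sqrt_sq (hgp i).le, eval_mul, QD_eval]
    by_cases hi : i < N
    · have hz : (∏ k ∈ range N, (1 - γ i ^ 2 / γ k ^ 2)) = 0 := by
        apply Finset.prod_eq_zero (Finset.mem_range.2 hi)
        have := hgp i
        field_simp
        ring
      rw [hz]
      simp only [mul_zero]
      exact mul_nonneg (by have := Real.pi_pos; positivity)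
        (div_nonneg (hm0 i) (pow_nonneg (hgp i).le _))
    · have hi' : N ≤ i := not_lt.1 hi
      have hgi := hgp i
      have h8 := rate1_pt (γs := γ) ha0 N hgi (h4.trans (pow_le_pow_left₀ h0.le
        (hγ.monotone (Nat.zero_le i)) 2)) (fun j _ => hgp j)
        (fun j hj => hγ.monotone (by omega)) hε0 h3.le hb
      rw [← hN] at h8
      have h9 : (γ i * (|∏ j ∈ range N, (1 - γ i ^ 2 / γ j ^ 2)| * |Sr a (n a) (γ i)|)) ^ 2 ≤
          (ε ^ (2 * N) * (2 * xk a 1 ^ 2 / (a * γ i ^ 2))) ^ 2 :=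
        pow_le_pow_left₀ (by positivity) h8 2
      have e1 : γ i ^ 2 * (2 * m i * Sr a (n a) (γ i) ^ 2) *
          ((∏ k ∈ range N, (1 - γ i ^ 2 / γ k ^ 2)) * (∏ k ∈ range N, (1 - γ i ^ 2 / γ k ^ 2))) =
          2 * m i * (γ i * (|∏ j ∈ range N, (1 - γ i ^ 2 / γ j ^ 2)| * |Sr a (n a) (γ i)|)) ^ 2 := by
        rw [mul_pow, mul_pow, sq_abs, sq_abs]
        ring
      rw [e1]
      refine (mul_le_mul_of_nonneg_left h9 (by have := hm0 i; positivity)).trans ?_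
      have e2 : (ε ^ (2 * N) * (2 * xk a 1 ^ 2 / (a * γ i ^ 2))) ^ 2 =
          ε ^ (4 * N) * (4 * Real.pi ^ 4 / (a ^ 6 * γ i ^ 4)) := by
        unfold xk
        push_cast
        field_simp
        ring
      rw [e2]
      have h10 : 4 * Real.pi ^ 4 / (a ^ 6 * γ i ^ 4) ≤ 4 * Real.pi ^ 4 / γ i ^ 4 := by
        apply div_le_div_of_nonneg_left (by positivity) (by positivity)
        have : 1 ≤ a ^ 6 := one_le_pow₀ ha1.le
        nlinarith [pow_pos hgi 4]
      calc 2 * m i * (ε ^ (4 * N) * (4 * Real.pi ^ 4 / (a ^ 6 * γ i ^ 4)))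
          ≤ 2 * m i * (ε ^ (4 * N) * (4 * Real.pi ^ 4 / γ i ^ 4)) := by
            have := hm0 i
            gcongr
        _ = (8 * Real.pi ^ 4 * ε ^ (4 * N)) * (m i / γ i ^ 4) := by ring
  unfold Lam
  calc (∑' j, γ j ^ 2 * (2 * m j * Sr a (n a) (Real.sqrt (γ j ^ 2)) ^ 2) *
        (QD (fun j => γ j ^ 2) N * QD (fun j => γ j ^ 2) N).eval (γ j ^ 2))
      ≤ ∑' i, (8 * Real.pi ^ 4 * ε ^ (4 * N)) * (m i / γ i ^ 4) :=
        hsm.tsum_le_tsum hpt (hs4.mul_left _)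
    _ = (8 * Real.pi ^ 4 * ε ^ (4 * N)) * T4 := by rw [tsum_mul_left]
    _ = (8 * Real.pi ^ 4 * T4) * ε ^ (4 * N) := by ring
    _ ≤ K * ε ^ (4 * N) := by
        apply mul_le_mul_of_nonneg_right _ (by positivity)
        rw [hK]
        linarith

end Pool.Agent.Q285.CG
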