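import Pool.Agent.Q240.CG.Stm

set_option autoImplicit false

/-!
# Project CG, job Fam0Z: the concrete masses satisfy `Fam0`
-/

open Polynomial Filter Topology Finset MeasureTheory

namespace Pool.Agent.Q285.CG

open Pool.Agent.Q240.CD Pool.Agent.Q240.CG
open Pool.Agent.Q128.CD (young pow_exp)

lemma lam_X (g M : ℕ → ℝ) (p : ℝ[X]) : Lam g (fun j => g j * M j) p = Lam g M (X * p) := by
  unfold Lam
  refine tsum_congr fun j => ?_
  rw [eval_mul, eval_X]
  ring

theorem fam0Z : S_Fam0Z := by
  intro g m hg hg0 hm hsum n κ hκ hn hdfn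
  have hF := a_famZ g m hg hg0 hm hsum n κ hκ hn hdfn
  have hgp : ∀ j, 0 < g j := fun j => hg0.trans_le (hg.monotone (Nat.zero_le j))
  have hmp : ∀ j, 0 < m j := fun j => one_pos.trans_le (hm j)
  have hg78 : ∀ j, 0 < g j ^ (7 / 8 : ℝ) := fun j => Real.rpow_pos_of_pos (hgp j) _
  have hck : 0 < ck κ := by
    unfold ck
    positivity
  obtain ⟨c, hc⟩ : ∃ c, c = ck κ := ⟨_, rfl⟩
  have hc0 : 0 < c := by rw [hc]; exact hck
  have hs78 : Summable fun j => 1 / g j ^ (7 / 8 : ℝ) := by
    refine Summable.of_nonneg_of_le (fun j => (div_pos one_pos (hg78 j)).le) (fun j => ?_) hsum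
    exact div_le_div_of_nonneg_right (hm j) (hg78 j).le
  refine ⟨hF, ⟨?_, ?_, hF.gsum, fun j => mul_pos (hgp j) (hF.mpos j), fun d => ?_, ?_, fun j => ?_, fun p => ?_⟩⟩
  · -- `pm`
    filter_upwards [hF.pm, hF.top.eventually_ge_atTop 1] with a ha hna
    obtain ⟨k, hk⟩ : ∃ k, n a = k + 1 := ⟨n a - 1, by omega⟩
    have hk' : n a - 1 = k := by omega
    rw [hk']
    rw [hk] at ha
    refine ⟨ha.mono, ha.pos, fun j => mul_nonneg (hgp j).le (by rw [hk]; exact ha.nonneg j), ?_, fun q hq hq0 => ?_⟩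
    · refine Summable.of_nonneg_of_le (fun j => ?_) (fun j => ?_) ha.sum
      · have h1 := ha.nonneg j
        have h2 := hgp j
        rw [hk]
        positivity
      · have h1 := ha.nonneg j
        have h2 := hgp j
        rw [hk]
        have h3 : (1 + g j) ^ (2 * (k + 1)) = (1 + g j) ^ (2 * k) * (1 + g j) ^ 2 := by
          rw [← pow_add]
          congr 1
        have h4 : g j ≤ (1 + g j) ^ 2 := by nlinarith
        have h5 : 0 ≤ 2 * m j * Sr a (k + 1) (Real.sqrt (g j)) ^ 2 * (1 + g j) ^ (2 * k) := by positivity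
        rw [h3]
        calc g j * (2 * m j * Sr a (k + 1) (Real.sqrt (g j)) ^ 2) * (1 + g j) ^ (2 * k)
            = 2 * m j * Sr a (k + 1) (Real.sqrt (g j)) ^ 2 * (1 + g j) ^ (2 * k) * g j := by ring
          _ ≤ 2 * m j * Sr a (k + 1) (Real.sqrt (g j)) ^ 2 * (1 + g j) ^ (2 * k) * (1 + g j) ^ 2 :=
              mul_le_mul_of_nonneg_left h4 h5
          _ = _ := by ring
    · rw [hk, lam_X]
      have hd1 : (q * q).natDegree ≤ 2 * (k + 1) := by
        have := natDegree_mul_le (p := q) (q := q)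
        omega
      have hd2 : (X * (q * q)).natDegree ≤ 2 * (k + 1) := by
        have h1 := natDegree_mul_le (p := q) (q := q)
        have h2 := natDegree_mul_le (p := (X : ℝ[X])) (q := q * q)
        rw [natDegree_X] at h2
        omega
      have hs1 := Pool.Agent.Q280.CD2.summable_eval ha (q * q) hd1
      have hs2 := Pool.Agent.Q280.CD2.summable_eval ha (X * (q * q)) hd2
      have h0 := ha.dfn q (by omega) hq0
      have h1 : g 0 * Lam g (fun j => 2 * m j * Sr a (k + 1) (Real.sqrt (g j)) ^ 2) (q * q) ≤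
          Lam g (fun j => 2 * m j * Sr a (k + 1) (Real.sqrt (g j)) ^ 2) (X * (q * q)) := by
        unfold Lam
        rw [← tsum_mul_left]
        refine (hs1.mul_left (g 0)).tsum_le_tsum (fun j => ?_) hs2
        rw [eval_mul, eval_mul, eval_X, eval_mul]
        have h2 := ha.nonneg j
        have h3 : g 0 ≤ g j := hg.monotone (Nat.zero_le j)
        have h4 : 0 ≤ 2 * m j * Sr a (k + 1) (Real.sqrt (g j)) ^ 2 * (q.eval (g j) * q.eval (g j)) :=
          mul_nonneg h2 (mul_self_nonneg _)
        calc g 0 * (2 * m j * Sr a (k + 1) (Real.sqrt (g j)) ^ 2 * (q.eval (g j) * q.eval (g j)))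
            ≤ g j * (2 * m j * Sr a (k + 1) (Real.sqrt (g j)) ^ 2 * (q.eval (g j) * q.eval (g j))) :=
              mul_le_mul_of_nonneg_right h3 h4
          _ = _ := by ring
      have h5 := mul_pos hg0 h0
      linarith
  · exact (tendsto_sub_atTop_nat 1).comp hF.top
  · -- `msum`
    refine Summable.of_nonneg_of_le (fun j => ?_) (fun j => ?_) (hF.msum (d + 1))
    · have h1 := hF.mpos j
      have h2 := hgp j
      positivity
    · have h1 := hF.mpos j
      have h2 := hgp j
      have h3 : g j ≤ 1 + g j := by linarith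
      have h4 : 0 ≤ 2 * m j * Real.exp (-(2 * ck κ * g j)) * (1 + g j) ^ d := by positivity
      calc g j * (2 * m j * Real.exp (-(2 * ck κ * g j))) * (1 + g j) ^ d
          = 2 * m j * Real.exp (-(2 * ck κ * g j)) * (1 + g j) ^ d * g j := by ring
        _ ≤ 2 * m j * Real.exp (-(2 * ck κ * g j)) * (1 + g j) ^ d * (1 + g j) :=
            mul_le_mul_of_nonneg_left h3 h4
        _ = _ := by rw [pow_succ]; ring
  · -- `maj`
    obtain ⟨C, hC, hCb⟩ := a_mj g hgp hs78
    obtain ⟨B, hB, hBb⟩ := pow_exp c hc0 1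
    obtain ⟨ε, hε⟩ : ∃ ε, ε = c / (2 * C + 1) := ⟨_, rfl⟩
    have hε0 : 0 < ε := by rw [hε]; positivity
    have hb : ∀ j, Real.exp (-(2 * ck κ * g j)) * g j * mj g j (g j) ^ 2 * g j ^ (7 / 8 : ℝ) ≤
        B * Real.exp ((2 * C + 1) * (ε⁻¹) ^ 7) := by
      intro j
      have h7 := hgp j
      have h8 := hg78 j
      have h9 : mj g j (g j) ^ 2 ≤ Real.exp (2 * C * g j ^ (7 / 8 : ℝ)) := by
        have h10 : 0 ≤ mj g j (g j) := by
          unfold mj
          exact Finset.prod_nonneg fun i _ => zero_le_one.trans (le_max_left _ _)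
        calc mj g j (g j) ^ 2 ≤ Real.exp (C * g j ^ (7 / 8 : ℝ)) ^ 2 :=
              pow_le_pow_left₀ h10 (hCb j (g j) h7.le) 2
          _ = Real.exp (2 * C * g j ^ (7 / 8 : ℝ)) := by
              rw [← Real.exp_nat_mul]
              congr 1
              push_cast
              ring
      have h10 : g j ^ (7 / 8 : ℝ) ≤ Real.exp (g j ^ (7 / 8 : ℝ)) := by
        have := Real.add_one_le_exp (g j ^ (7 / 8 : ℝ))
        linarith
      have h11 : g j ≤ B * Real.exp (c * g j) := by
        have := hBb (g j) h7.le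
        rw [pow_one] at this
        linarith
      calc Real.exp (-(2 * ck κ * g j)) * g j * mj g j (g j) ^ 2 * g j ^ (7 / 8 : ℝ)
          ≤ Real.exp (-(2 * ck κ * g j)) * (B * Real.exp (c * g j)) * Real.exp (2 * C * g j ^ (7 / 8 : ℝ)) *
              Real.exp (g j ^ (7 / 8 : ℝ)) := by
            refine mul_le_mul (mul_le_mul (mul_le_mul_of_nonneg_left h11 (by positivity)) h9 (by positivity)
              (by positivity)) h10 h8.le (by positivity)
        _ = B * Real.exp (-(c * g j) + (2 * C + 1) * g j ^ (7 / 8 : ℝ)) := by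
            have e : -(c * g j) + (2 * C + 1) * g j ^ (7 / 8 : ℝ) = -(2 * ck κ * g j) + c * g j +
                2 * C * g j ^ (7 / 8 : ℝ) + g j ^ (7 / 8 : ℝ) := by
              rw [hc]
              ring
            rw [e, Real.exp_add, Real.exp_add, Real.exp_add]
            ring
        _ ≤ B * Real.exp ((2 * C + 1) * (ε⁻¹) ^ 7) := by
            refine mul_le_mul_of_nonneg_left (Real.exp_le_exp.2 ?_) hB.le
            have h11 := mul_le_mul_of_nonneg_left (young ε hε0 (g j) h7)
              (by positivity : (0 : ℝ) ≤ 2 * C + 1)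
            have h12 : (2 * C + 1) * (ε * g j) = c * g j := by
              rw [hε]
              field_simp
            linarith
    refine Summable.of_nonneg_of_le (fun j => ?_) (fun j => ?_)
      (hsum.mul_left (2 * (B * Real.exp ((2 * C + 1) * (ε⁻¹) ^ 7))))
    · have h1 := hmp j
      have h2 := hgp j
      positivity
    · have h7 := hg78 j
      have h8 : Real.exp (-(2 * ck κ * g j)) * g j * mj g j (g j) ^ 2 ≤
          B * Real.exp ((2 * C + 1) * (ε⁻¹) ^ 7) / g j ^ (7 / 8 : ℝ) := by
        rw [le_div_iff₀ h7]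
        exact hb j
      calc g j * (2 * m j * Real.exp (-(2 * ck κ * g j))) * mj g j (g j) ^ 2
          = 2 * m j * (Real.exp (-(2 * ck κ * g j)) * g j * mj g j (g j) ^ 2) := by ring
        _ ≤ 2 * m j * (B * Real.exp ((2 * C + 1) * (ε⁻¹) ^ 7) / g j ^ (7 / 8 : ℝ)) :=
            mul_le_mul_of_nonneg_left h8 (by linarith [hmp j])
        _ = _ := by ring
  · exact (hF.lim j).const_mul (g j)
  · have h1 := hF.limP (X * p)
    have h2 : (fun a => Lam g (fun j => g j * (2 * m j * Sr a (n a) (Real.sqrt (g j)) ^ 2)) p) =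
        fun a => Lam g (fun j => 2 * m j * Sr a (n a) (Real.sqrt (g j)) ^ 2) (X * p) := by
      funext a
      exact lam_X g _ p
    rw [h2, lam_X]
    exact h1

end Pool.Agent.Q285.CG
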